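import Mathlib

/-!
# Asymptotic rooftops and rooftops with the residual function

We show that `P[φ](ψ) = P(ψ, g_φ)` fails for two negative pluriharmonic functions on the unit ball
of `ℂ²`.
-/

namespace Pool.Agent.Results.MP_c86293_an.RooftopFails

open Filter Topology Metric Set

/-! ### Definitions -/

/-- `u` is plurisubharmonic on `D`: upper semicontinuous, never `+∞`, and for every closed affine
disc `{a + ζ b : |ζ| ≤ 1}` in `D` the value at the centre is at most the mean over the circle (stated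
as: at most the mean of every continuous majorant on the circle). -/
structure PSH {n : ℕ} (D : Set (Fin n → ℂ)) (u : (Fin n → ℂ) → EReal) : Prop where
  usc : UpperSemicontinuousOn u D
  lt_top : ∀ z ∈ D, u z < ⊤
  submean : ∀ a b : Fin n → ℂ, (∀ ζ : ℂ, ‖ζ‖ ≤ 1 → a + ζ • b ∈ D) →
    ∀ h : ℂ → ℝ, ContinuousOn h (sphere 0 1) →
      (∀ ζ : ℂ, ‖ζ‖ = 1 → u (a + ζ • b) ≤ (h ζ : EReal)) →
        u a ≤ ((Real.circleAverage h 0 1 : ℝ) : EReal)

/-- upper semicontinuous regularisation on `D` -/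
noncomputable def usr {n : ℕ} (D : Set (Fin n → ℂ)) (f : (Fin n → ℂ) → EReal)
    (z : Fin n → ℂ) : EReal := limsup f (𝓝[D] z)

/-- the envelope `P(h)` -/
noncomputable def env {n : ℕ} (D : Set (Fin n → ℂ)) (h : (Fin n → ℂ) → EReal) :
    (Fin n → ℂ) → EReal :=
  usr D (fun x => ⨆ v : {v : (Fin n → ℂ) → EReal // PSH D v ∧ ∀ y ∈ D, v y ≤ h y}, v.1 x)

/-- the rooftop envelope `P(u, v)` -/
noncomputable def roof {n : ℕ} (D : Set (Fin n → ℂ)) (u v : (Fin n → ℂ) → EReal) :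
    (Fin n → ℂ) → EReal := env D (fun x => min (u x) (v x))

/-- the residual function `g_φ` -/
noncomputable def resid {n : ℕ} (D : Set (Fin n → ℂ)) (φ : (Fin n → ℂ) → EReal) :
    (Fin n → ℂ) → EReal :=
  usr D (fun x => ⨆ v : {v : (Fin n → ℂ) → EReal // PSH D v ∧ (∀ y ∈ D, v y < 0) ∧
    ∃ C : ℝ, ∀ y ∈ D, v y ≤ φ y + C}, v.1 x)

/-- the asymptotic rooftop `P[φ](ψ)` -/
noncomputable def asym {n : ℕ} (D : Set (Fin n → ℂ)) (φ ψ : (Fin n → ℂ) → EReal) :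
    (Fin n → ℂ) → EReal :=
  usr D (fun x => ⨆ C : ℝ, roof D ψ (fun y => φ y + C) x)

/-- `D` is a bounded pseudoconvex domain: open, connected, bounded, with a continuous
plurisubharmonic exhaustion function -/
def BoundedPseudoconvexDomain {n : ℕ} (D : Set (Fin n → ℂ)) : Prop :=
  IsOpen D ∧ IsConnected D ∧ Bornology.IsBounded D ∧
    ∃ u : (Fin n → ℂ) → ℝ, ContinuousOn u D ∧ PSH D (fun z => (u z : EReal)) ∧
      ∀ c : ℝ, IsCompact {z | z ∈ D ∧ u z ≤ c}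

/-- the unit ball of `ℂ²` -/
def ballC2 : Set (Fin 2 → ℂ) := {z | ‖z 0‖ ^ 2 + ‖z 1‖ ^ 2 < 1}

/-! ### General lemmas -/

theorem le_usr {n : ℕ} {D : Set (Fin n → ℂ)} {f : (Fin n → ℂ) → EReal} {z : Fin n → ℂ}
    (hz : z ∈ D) : f z ≤ usr D f z := by
  have h1 : limsup f (pure z) ≤ limsup f (𝓝[D] z) :=
    limsup_le_limsup_of_le (pure_le_nhdsWithin hz)
  have h2 : limsup f (pure z) = f z := (tendsto_pure_nhds f z).limsup_eq
  rw [← h2]
  exact h1

theorem usr_le {n : ℕ} {D : Set (Fin n → ℂ)} {f : (Fin n → ℂ) → EReal} {g : (Fin n → ℂ) → ℝ}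
    (hg : ContinuousOn g D) (hfg : ∀ z ∈ D, f z ≤ g z) {z : Fin n → ℂ} (hz : z ∈ D) :
    usr D f z ≤ g z := by
  have hne : (𝓝[D] z).NeBot := mem_closure_iff_nhdsWithin_neBot.1 (subset_closure hz)
  have h1 : Tendsto (fun y => (g y : EReal)) (𝓝[D] z) (𝓝 (g z : EReal)) :=
    (continuous_coe_real_ereal.tendsto _).comp (hg z hz)
  have h0 : f ≤ᶠ[𝓝[D] z] fun y => (g y : EReal) := by
    filter_upwards [self_mem_nhdsWithin] with y hy
    exact hfg y hy
  have h2 : limsup f (𝓝[D] z) ≤ limsup (fun y => (g y : EReal)) (𝓝[D] z) := limsup_le_limsup h0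
  rw [h1.limsup_eq] at h2
  exact h2

theorem mean_re {f : ℂ → ℂ} {U : Set ℂ} (hU : closedBall (0 : ℂ) 1 ⊆ U)
    (hf : DifferentiableOn ℂ f U) :
    Real.circleAverage (fun ζ => (f ζ).re) 0 1 = (f 0).re := by
  have hd : DiffContOnCl ℂ f (ball 0 |(1 : ℝ)|) := by
    rw [abs_one]
    exact hf.diffContOnCl_ball hU
  have h1 := hd.circleAverage
  have hc : CircleIntegrable f 0 1 := by
    apply ContinuousOn.circleIntegrable zero_le_one
    exact hf.continuousOn.mono (sphere_subset_closedBall.trans hU)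
  have h2 := Complex.reCLM.circleAverage_comp_comm hc
  simp only [Function.comp_def, Complex.reCLM_apply] at h2
  rw [h2, h1]

/-- touching from below by real parts of holomorphic functions -/
theorem psh_of_touch {n : ℕ} {D : Set (Fin n → ℂ)} {u : (Fin n → ℂ) → ℝ}
    (hu : ContinuousOn u D)
    (ht : ∀ a ∈ D, ∃ f : (Fin n → ℂ) → ℂ, DifferentiableOn ℂ f D ∧ (∀ z ∈ D, (f z).re ≤ u z) ∧
      (f a).re = u a) : PSH D (fun z => (u z : EReal)) := by
  refine ⟨?_, fun z _ => EReal.coe_lt_top _, ?_⟩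
  · apply ContinuousOn.upperSemicontinuousOn
    exact continuous_coe_real_ereal.comp_continuousOn hu
  · intro a b hab h hh hle
    have ha : a ∈ D := by
      have := hab 0 (by simp)
      simpa using this
    obtain ⟨f, hf, hfu, hfa⟩ := ht a ha
    set g : ℂ → ℂ := fun ζ => f (a + ζ • b) with hg
    set U : Set ℂ := (fun ζ : ℂ => a + ζ • b) ⁻¹' D with hU
    have hgd : DifferentiableOn ℂ g U := by
      apply hf.comp
      · fun_prop
      · exact fun ζ hζ => hζ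
    have hUs : closedBall (0 : ℂ) 1 ⊆ U := by
      intro ζ hζ
      exact hab ζ (by simpa using hζ)
    have h1 := mean_re hUs hgd
    have h2 : (g 0).re = u a := by
      rw [hg]
      simp only [zero_smul, add_zero]
      exact hfa
    rw [EReal.coe_le_coe_iff, ← h2, ← h1]
    apply Real.circleAverage_mono
    · apply ContinuousOn.circleIntegrable zero_le_one
      exact Complex.continuous_re.comp_continuousOn
        (hgd.continuousOn.mono (sphere_subset_closedBall.trans hUs))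
    · exact hh.circleIntegrable zero_le_one
    · intro ζ hζ
      rw [abs_one] at hζ
      have hζ1 : ‖ζ‖ = 1 := by simpa using hζ
      have h3 := hle ζ hζ1
      rw [EReal.coe_le_coe_iff] at h3
      exact (hfu _ (hab ζ hζ1.le)).trans h3

theorem psh_re {n : ℕ} {D : Set (Fin n → ℂ)} {f : (Fin n → ℂ) → ℂ}
    (hf : DifferentiableOn ℂ f D) : PSH D (fun z => ((f z).re : EReal)) :=
  psh_of_touch (Complex.continuous_re.comp_continuousOn hf.continuousOn)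
    (fun _ _ => ⟨f, hf, fun _ _ => le_rfl, rfl⟩)

/-! ### The ball -/

/-- `F = (1 + z₀) / (1 - z₀)` -/
noncomputable def FF (z : Fin 2 → ℂ) : ℂ := (1 + z 0) / (1 - z 0)

/-- `G = z₁ / (1 - z₀)` -/
noncomputable def GG (z : Fin 2 → ℂ) : ℂ := z 1 / (1 - z 0)

theorem one_sub_ne {z : Fin 2 → ℂ} (hz : z ∈ ballC2) : 1 - z 0 ≠ 0 := by
  intro h
  have h1 : z 0 = 1 := by
    rw [sub_eq_zero] at h
    exact h.symm
  have h2 : ‖z 0‖ ^ 2 + ‖z 1‖ ^ 2 < 1 := hz
  rw [h1, norm_one] at h2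
  nlinarith [sq_nonneg ‖z 1‖]

theorem re_F {a : ℂ} (ha : 1 - a ≠ 0) :
    ((1 + a) / (1 - a)).re * ‖1 - a‖ ^ 2 = 1 - ‖a‖ ^ 2 := by
  have h1 : Complex.normSq (1 - a) ≠ 0 := by
    rwa [Ne, Complex.normSq_eq_zero]
  rw [Complex.div_re, ← Complex.normSq_eq_norm_sq, ← Complex.normSq_eq_norm_sq]
  field_simp
  simp only [Complex.normSq_apply, Complex.add_re, Complex.sub_re, Complex.add_im, Complex.sub_im,
    Complex.one_re, Complex.one_im]
  ring

theorem norm_G {z : Fin 2 → ℂ} (hz : 1 - z 0 ≠ 0) : ‖GG z‖ ^ 2 * ‖1 - z 0‖ ^ 2 = ‖z 1‖ ^ 2 := by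
  unfold GG
  rw [norm_div]
  have : ‖1 - z 0‖ ≠ 0 := by rwa [Ne, norm_eq_zero]
  field_simp

/-- `|G|² < Re F` on the ball -/
theorem G_lt_F {z : Fin 2 → ℂ} (hz : z ∈ ballC2) : ‖GG z‖ ^ 2 < (FF z).re := by
  have h0 := one_sub_ne hz
  have h1 := re_F h0
  have h2 := norm_G h0
  have h3 : ‖z 0‖ ^ 2 + ‖z 1‖ ^ 2 < 1 := hz
  have h4 : 0 < ‖1 - z 0‖ ^ 2 := by positivity
  have h5 : ((1 + z 0) / (1 - z 0)).re = (FF z).re := rfl
  rw [h5] at h1
  by_contra h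
  push Not at h
  nlinarith [mul_le_mul_of_nonneg_right h h4.le]

theorem mem_ball_iff {z : Fin 2 → ℂ} (hz : 1 - z 0 ≠ 0) :
    z ∈ ballC2 ↔ ‖GG z‖ ^ 2 < (FF z).re := by
  refine ⟨G_lt_F, fun h => ?_⟩
  have h1 := re_F hz
  have h2 := norm_G hz
  have h4 : 0 < ‖1 - z 0‖ ^ 2 := by positivity
  have h5 : ((1 + z 0) / (1 - z 0)).re = (FF z).re := rfl
  rw [h5] at h1
  change ‖z 0‖ ^ 2 + ‖z 1‖ ^ 2 < 1
  nlinarith [mul_lt_mul_of_pos_right h h4]

theorem isOpen_ballC2 : IsOpen ballC2 := by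
  apply isOpen_lt <;> fun_prop

theorem diff_F : DifferentiableOn ℂ FF ballC2 := by
  intro z hz
  have h0 := one_sub_ne hz
  apply DifferentiableAt.differentiableWithinAt
  have h1 : DifferentiableAt ℂ (fun z : Fin 2 → ℂ => 1 + z 0) z := by fun_prop
  have h2 : DifferentiableAt ℂ (fun z : Fin 2 → ℂ => 1 - z 0) z := by fun_prop
  exact h1.mul (h2.inv h0)

theorem diff_G : DifferentiableOn ℂ GG ballC2 := by
  intro z hz
  have h0 := one_sub_ne hz
  apply DifferentiableAt.differentiableWithinAt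
  have h1 : DifferentiableAt ℂ (fun z : Fin 2 → ℂ => z 1) z := by fun_prop
  have h2 : DifferentiableAt ℂ (fun z : Fin 2 → ℂ => 1 - z 0) z := by fun_prop
  exact h1.mul (h2.inv h0)

/-- `φ = -Re F` -/
noncomputable def phi (z : Fin 2 → ℂ) : ℝ := (-FF z).re

/-- `ψ = -Re (F - G²)` -/
noncomputable def psi (z : Fin 2 → ℂ) : ℝ := (-FF z + GG z ^ 2).re

theorem psh_phi : PSH ballC2 (fun z => (phi z : EReal)) := psh_re diff_F.neg

theorem psh_psi : PSH ballC2 (fun z => (psi z : EReal)) :=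
  psh_re (diff_F.neg.add (diff_G.pow 2))

theorem re_sq_le (w : ℂ) : (w ^ 2).re ≤ ‖w‖ ^ 2 := by
  rw [← norm_pow]
  exact Complex.re_le_norm _

theorem phi_neg {z : Fin 2 → ℂ} (hz : z ∈ ballC2) : phi z < 0 := by
  have := G_lt_F hz
  unfold phi
  rw [Complex.neg_re]
  nlinarith [sq_nonneg ‖GG z‖]

theorem psi_neg {z : Fin 2 → ℂ} (hz : z ∈ ballC2) : psi z < 0 := by
  have := G_lt_F hz
  have h2 := re_sq_le (GG z)
  unfold psi
  rw [Complex.add_re, Complex.neg_re]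
  linarith

theorem psi_eq (z : Fin 2 → ℂ) : psi z = phi z + (GG z ^ 2).re := by
  unfold psi phi
  rw [Complex.add_re]

/-! ### The residual function -/

theorem psi_le_resid {z : Fin 2 → ℂ} (hz : z ∈ ballC2) :
    (psi z : EReal) ≤ resid ballC2 (fun z => (phi z : EReal)) z := by
  have key : ∀ ε : ℝ, 0 < ε → ((-(1 + ε) * (FF z).re + ‖GG z‖ ^ 2 : ℝ) : EReal) ≤
      resid ballC2 (fun z => (phi z : EReal)) z := by
    intro ε hε
    set a : ℂ := GG z with ha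
    set f : (Fin 2 → ℂ) → ℂ := fun y => -(1 + ε) * FF y + 2 * (starRingEnd ℂ a) * GG y -
      (‖a‖ ^ 2 : ℝ) with hf
    have hfd : DifferentiableOn ℂ f ballC2 := by
      apply DifferentiableOn.sub_const
      exact (diff_F.const_mul _).add (diff_G.const_mul _)
    have hre : ∀ y, (f y).re = -(1 + ε) * (FF y).re + 2 * (starRingEnd ℂ a * GG y).re - ‖a‖ ^ 2 := by
      intro y
      simp only [hf, Complex.sub_re, Complex.add_re, Complex.ofReal_re]
      congr 1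
      congr 1
      · rw [show (-(1 + (ε : ℂ))) = ((-(1 + ε) : ℝ) : ℂ) by push_cast; ring, Complex.re_ofReal_mul]
      · rw [mul_assoc, show (2 : ℂ) = ((2 : ℝ) : ℂ) by norm_num, Complex.re_ofReal_mul]
    have hle : ∀ y, (starRingEnd ℂ a * GG y).re ≤ ‖a‖ * ‖GG y‖ := by
      intro y
      refine (Complex.re_le_norm _).trans ?_
      rw [norm_mul, RCLike.norm_conj]
    have hmem : PSH ballC2 (fun y => ((f y).re : EReal)) ∧ (∀ y ∈ ballC2, ((f y).re : EReal) < 0) ∧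
        ∃ C : ℝ, ∀ y ∈ ballC2, ((f y).re : EReal) ≤ (phi y : EReal) + C := by
      refine ⟨psh_re hfd, ?_, ‖a‖ ^ 2 / ε, ?_⟩
      · intro y hy
        have h1 := G_lt_F hy
        have h2 := hle y
        rw [show (0 : EReal) = ((0 : ℝ) : EReal) from rfl, EReal.coe_lt_coe_iff, hre]
        nlinarith [sq_nonneg (‖a‖ - ‖GG y‖), sq_nonneg ‖GG y‖, mul_pos hε
          (lt_of_le_of_lt (sq_nonneg ‖GG y‖) h1)]
      · intro y hy
        have h1 := G_lt_F hy
        have h2 := hle y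
        rw [← EReal.coe_add, EReal.coe_le_coe_iff, hre]
        unfold phi
        rw [Complex.neg_re]
        have h3 : 2 * (‖a‖ * ‖GG y‖) ≤ ε * ‖GG y‖ ^ 2 + ‖a‖ ^ 2 / ε := by
          have h4 : 0 ≤ (ε * ‖GG y‖ - ‖a‖) ^ 2 / ε := by positivity
          have h5 : (ε * ‖GG y‖ - ‖a‖) ^ 2 / ε = ε * ‖GG y‖ ^ 2 + ‖a‖ ^ 2 / ε -
              2 * (‖a‖ * ‖GG y‖) := by
            field_simp
            ring
          linarith
        nlinarith [mul_lt_mul_of_pos_left h1 hε, sq_nonneg ‖a‖]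
    have h1 : ((f z).re : EReal) ≤ ⨆ v : {v : (Fin 2 → ℂ) → EReal // PSH ballC2 v ∧
        (∀ y ∈ ballC2, v y < 0) ∧ ∃ C : ℝ, ∀ y ∈ ballC2, v y ≤ (phi y : EReal) + C}, v.1 z :=
      le_iSup (fun v : {v : (Fin 2 → ℂ) → EReal // PSH ballC2 v ∧
        (∀ y ∈ ballC2, v y < 0) ∧ ∃ C : ℝ, ∀ y ∈ ballC2, v y ≤ (phi y : EReal) + C} => v.1 z)
        ⟨_, hmem⟩
    have h2 : (f z).re = -(1 + ε) * (FF z).re + ‖GG z‖ ^ 2 := by
      rw [hre, ← ha]
      have h3 : (starRingEnd ℂ a * a).re = ‖a‖ ^ 2 := by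
        rw [mul_comm, Complex.mul_conj, Complex.ofReal_re, Complex.normSq_eq_norm_sq]
      rw [h3]
      ring
    rw [← h2]
    unfold resid
    exact h1.trans (le_usr (f := fun x => ⨆ v : {v : (Fin 2 → ℂ) → EReal // PSH ballC2 v ∧
      (∀ y ∈ ballC2, v y < 0) ∧ ∃ C : ℝ, ∀ y ∈ ballC2, v y ≤ (phi y : EReal) + C}, v.1 x) hz)
  have hlim : Tendsto (fun ε : ℝ => ((-(1 + ε) * (FF z).re + ‖GG z‖ ^ 2 : ℝ) : EReal)) (𝓝[>] 0)
      (𝓝 ((-(1 + 0) * (FF z).re + ‖GG z‖ ^ 2 : ℝ) : EReal)) := by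
    apply (continuous_coe_real_ereal.tendsto _).comp
    apply Tendsto.mono_left _ nhdsWithin_le_nhds
    apply Continuous.tendsto
    fun_prop
  have h1 := le_of_tendsto hlim (by
    filter_upwards [self_mem_nhdsWithin] with ε hε
    exact key ε hε)
  refine le_trans ?_ h1
  rw [EReal.coe_le_coe_iff]
  have h2 := re_sq_le (GG z)
  unfold psi
  rw [Complex.add_re, Complex.neg_re]
  linarith

/-! ### The upper bound: circles in the discs `z₀ = const` -/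

theorem mean_trig (k p r q C : ℝ) :
    Real.circleAverage (fun ζ : ℂ => k + ((1 - ζ.re ^ 2) * ((p + q * ζ.re) ^ 2 -
      (r + q * ζ.im) ^ 2) + ζ.re ^ 2 * C)) 0 1 = k + ((p ^ 2 - r ^ 2) / 2 - q ^ 2 / 4 + C / 2) := by
  rw [Real.circleAverage_def]
  have h1 : ∀ θ : ℝ, (circleMap 0 1 θ).re = Real.cos θ := by
    intro θ
    simp [circleMap, Complex.exp_ofReal_mul_I_re]
  have h2 : ∀ θ : ℝ, (circleMap 0 1 θ).im = Real.sin θ := by
    intro θ
    simp [circleMap, Complex.exp_ofReal_mul_I_im]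
  simp only [h1, h2]
  have h3 : ∀ θ : ℝ, HasDerivAt (fun θ : ℝ => k * θ +
      ((p ^ 2 - r ^ 2) * (θ / 2 - Real.sin θ * Real.cos θ / 2) +
      2 * p * q * (Real.sin θ ^ 3 / 3) +
      2 * r * q * (Real.cos θ - Real.cos θ ^ 3 / 3) +
      q ^ 2 * (- θ / 4 + Real.sin θ * Real.cos θ / 4 + Real.sin θ ^ 3 * Real.cos θ / 2) +
      C * (θ / 2 + Real.sin θ * Real.cos θ / 2)))
      (k + ((1 - Real.cos θ ^ 2) * ((p + q * Real.cos θ) ^ 2 - (r + q * Real.sin θ) ^ 2) +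
        Real.cos θ ^ 2 * C)) θ := by
    intro θ
    have hs := Real.hasDerivAt_sin θ
    have hc := Real.hasDerivAt_cos θ
    have hid := hasDerivAt_id θ
    have e1 := ((hid.div_const 2).sub ((hs.mul hc).div_const 2)).const_mul (p ^ 2 - r ^ 2)
    have e2 := ((hs.pow 3).div_const 3).const_mul (2 * p * q)
    have e3 := (hc.sub ((hc.pow 3).div_const 3)).const_mul (2 * r * q)
    have e4 := (((hid.neg.div_const 4).add ((hs.mul hc).div_const 4)).add
      (((hs.pow 3).mul hc).div_const 2)).const_mul (q ^ 2)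
    have e5 := ((hid.div_const 2).add ((hs.mul hc).div_const 2)).const_mul C
    have e := (hid.const_mul k).add ((((e1.add e2).add e3).add e4).add e5)
    have hsc := Real.sin_sq_add_cos_sq θ
    refine HasDerivAt.congr_deriv (f := fun θ : ℝ => k * θ +
      ((p ^ 2 - r ^ 2) * (θ / 2 - Real.sin θ * Real.cos θ / 2) +
      2 * p * q * (Real.sin θ ^ 3 / 3) +
      2 * r * q * (Real.cos θ - Real.cos θ ^ 3 / 3) +
      q ^ 2 * (- θ / 4 + Real.sin θ * Real.cos θ / 4 + Real.sin θ ^ 3 * Real.cos θ / 2) +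
      C * (θ / 2 + Real.sin θ * Real.cos θ / 2))) e ?_
    simp only [Pi.pow_apply]
    push_cast
    linear_combination (-((-(p ^ 2 - r ^ 2) / 2) - 2 * p * q * Real.cos θ -
      q ^ 2 * (Real.cos θ ^ 2 - Real.sin θ ^ 2 / 2 + 1 / 4) + C / 2)) * hsc
  have h4 := intervalIntegral.integral_eq_sub_of_hasDerivAt (a := 0) (b := 2 * Real.pi)
    (fun θ _ => h3 θ) (Continuous.intervalIntegrable (by fun_prop) _ _)
  rw [h4]
  simp only [Real.sin_two_pi, Real.cos_two_pi, Real.sin_zero, Real.cos_zero, smul_eq_mul]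
  have hpi := Real.pi_ne_zero
  field_simp
  ring

theorem step_A {v : (Fin 2 → ℂ) → EReal} (hv : PSH ballC2 v) {C : ℝ}
    (h1 : ∀ y ∈ ballC2, v y ≤ psi y) (h2 : ∀ y ∈ ballC2, v y ≤ (phi y : EReal) + C)
    {z : Fin 2 → ℂ} (hz : z ∈ ballC2) {q : ℝ} (hq : 0 ≤ q) (hq2 : (‖GG z‖ + q) ^ 2 < (FF z).re) :
    v z ≤ ((phi z + ((GG z ^ 2).re / 2 - q ^ 2 / 4 + C / 2) : ℝ) : EReal) := by
  have h0 := one_sub_ne hz
  set b : Fin 2 → ℂ := ![0, q * (1 - z 0)] with hb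
  have e0 : ∀ ζ : ℂ, (z + ζ • b) 0 = z 0 := by
    intro ζ
    simp [hb]
  have e1 : ∀ ζ : ℂ, (z + ζ • b) 1 = z 1 + ζ * (q * (1 - z 0)) := by
    intro ζ
    simp [hb]
  have eF : ∀ ζ : ℂ, FF (z + ζ • b) = FF z := by
    intro ζ
    unfold FF
    rw [e0]
  have eG : ∀ ζ : ℂ, GG (z + ζ • b) = GG z + q * ζ := by
    intro ζ
    unfold GG
    rw [e0, e1]
    field_simp
  have hmem : ∀ ζ : ℂ, ‖ζ‖ ≤ 1 → z + ζ • b ∈ ballC2 := by
    intro ζ hζ
    rw [mem_ball_iff (by rw [e0]; exact h0), eF, eG]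
    refine lt_of_le_of_lt ?_ hq2
    have h3 : ‖GG z + q * ζ‖ ≤ ‖GG z‖ + q := by
      refine (norm_add_le _ _).trans ?_
      rw [norm_mul, Complex.norm_real, Real.norm_eq_abs, abs_of_nonneg hq]
      nlinarith [norm_nonneg ζ]
    exact pow_le_pow_left₀ (norm_nonneg _) h3 2
  have h3 := hv.submean z b hmem (fun ζ : ℂ => phi z + ((1 - ζ.re ^ 2) *
    (((GG z).re + q * ζ.re) ^ 2 - ((GG z).im + q * ζ.im) ^ 2) + ζ.re ^ 2 * C))
    (Continuous.continuousOn (by fun_prop)) ?_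
  · rw [mean_trig] at h3
    refine h3.trans (le_of_eq ?_)
    congr 3
    rw [pow_two (GG z), Complex.mul_re]
    ring
  · intro ζ hζ
    have hm := hmem ζ hζ.le
    have hre : (GG (z + ζ • b) ^ 2).re = ((GG z).re + q * ζ.re) ^ 2 - ((GG z).im + q * ζ.im) ^ 2 := by
      rw [eG, pow_two, Complex.mul_re]
      simp only [Complex.add_re, Complex.add_im, Complex.re_ofReal_mul, Complex.im_ofReal_mul]
      ring
    have hphi : phi (z + ζ • b) = phi z := by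
      unfold phi
      rw [eF]
    have a1 := h1 _ hm
    have a2 := h2 _ hm
    rw [psi_eq, hre, hphi] at a1
    rw [hphi, ← EReal.coe_add] at a2
    have hs : ζ.re ^ 2 ≤ 1 := by
      have h5 : ‖ζ‖ ^ 2 = ζ.re ^ 2 + ζ.im ^ 2 := by
        rw [← Complex.normSq_eq_norm_sq, Complex.normSq_apply]
        ring
      rw [hζ] at h5
      nlinarith [sq_nonneg ζ.im]
    rcases le_total C (((GG z).re + q * ζ.re) ^ 2 - ((GG z).im + q * ζ.im) ^ 2) with h | h
    · refine a2.trans ?_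
      rw [EReal.coe_le_coe_iff]
      nlinarith [sq_nonneg ζ.re]
    · refine a1.trans ?_
      rw [EReal.coe_le_coe_iff]
      nlinarith [sq_nonneg ζ.re]

/-- the bound on each line through `(1, 0)` near that point -/
theorem step_A' {v : (Fin 2 → ℂ) → EReal} (hv : PSH ballC2 v) {C : ℝ}
    (h1 : ∀ y ∈ ballC2, v y ≤ psi y) (h2 : ∀ y ∈ ballC2, v y ≤ (phi y : EReal) + C)
    {z : Fin 2 → ℂ} (hz : z ∈ ballC2) :
    v z ≤ ((psi z - ((FF z).re - ‖GG z‖ ^ 2) / 32 + (‖GG z‖ ^ 2 + |C|) : ℝ) : EReal) := by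
  have hlt := G_lt_F hz
  set g := ‖GG z‖ with hg
  set x := (FF z).re with hx
  have hg0 : 0 ≤ g := norm_nonneg _
  have hx0 : 0 ≤ x := (sq_nonneg g).trans hlt.le
  have hgs : g < Real.sqrt x := Real.lt_sqrt_of_sq_lt hlt
  have hsq : Real.sqrt x ^ 2 = x := Real.sq_sqrt hx0
  have h3 := step_A hv h1 h2 hz (q := (Real.sqrt x - g) / 2) (by linarith) (by
    rw [← hg, ← hx]
    nlinarith)
  refine h3.trans ?_
  rw [EReal.coe_le_coe_iff, psi_eq]
  have h4 : -g ^ 2 ≤ (GG z ^ 2).re := by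
    have := Complex.abs_re_le_norm (GG z ^ 2)
    rw [norm_pow, ← hg] at this
    exact (abs_le.1 this).1
  nlinarith [le_abs_self C, abs_nonneg C, sq_nonneg (Real.sqrt x - 2 * g)]

/-! ### The maximum principle -/

theorem normSq_add (c ζ : ℂ) (r : ℝ) (hζ : ‖ζ‖ = 1) :
    ‖c + r * ζ‖ ^ 2 = ‖c‖ ^ 2 + r ^ 2 + (2 * r * (starRingEnd ℂ c) * ζ).re := by
  have h1 : ζ.re ^ 2 + ζ.im ^ 2 = 1 := by
    have h5 : ‖ζ‖ ^ 2 = ζ.re ^ 2 + ζ.im ^ 2 := by
      rw [← Complex.normSq_eq_norm_sq, Complex.normSq_apply]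
      ring
    rw [← h5, hζ]
    norm_num
  rw [← Complex.normSq_eq_norm_sq, ← Complex.normSq_eq_norm_sq, Complex.normSq_apply,
    Complex.normSq_apply]
  simp only [Complex.add_re, Complex.add_im, Complex.mul_re, Complex.mul_im, Complex.conj_re, Complex.conj_im, Complex.ofReal_re,
    Complex.ofReal_im, Complex.re_ofNat, Complex.im_ofNat]
  linear_combination r ^ 2 * h1

theorem max_principle_aux {Δ : Set ℂ} (hΔ : IsOpen Δ) (hΔ1 : ∀ ζ ∈ Δ, ‖ζ‖ ≤ 1) {u : ℂ → EReal}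
    (husc : UpperSemicontinuousOn u Δ) (hlt : ∀ ζ ∈ Δ, u ζ < ⊤)
    (hsub : ∀ c ∈ Δ, ∀ r : ℝ, 0 < r → closedBall c r ⊆ Δ → ∀ h : ℂ → ℝ,
      ContinuousOn h (sphere 0 1) → (∀ ζ : ℂ, ‖ζ‖ = 1 → u (c + r * ζ) ≤ (h ζ : EReal)) →
        u c ≤ ((Real.circleAverage h 0 1 : ℝ) : EReal))
    {f : ℂ → ℂ} (hf : DifferentiableOn ℂ f Δ) {K : Set ℂ} (hK : IsCompact K) (hKΔ : K ⊆ Δ)
    (hout : ∀ ζ ∈ Δ, ζ ∉ K → u ζ ≤ ((f ζ).re : EReal)) {ε : ℝ} (hε : 0 < ε) :
    ∀ ζ ∈ Δ, u ζ ≤ (((f ζ).re + ε * (1 - ‖ζ‖ ^ 2) : ℝ) : EReal) := by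
  set W : ℂ → ℝ := fun ζ => (f ζ).re + ε * (1 - ‖ζ‖ ^ 2) with hW
  have hWf : ∀ ζ ∈ Δ, (f ζ).re ≤ W ζ := by
    intro ζ hζ
    have h1 := hΔ1 ζ hζ
    have h2 : ‖ζ‖ ^ 2 ≤ 1 := by nlinarith [norm_nonneg ζ]
    simp only [hW]
    nlinarith
  have hWc : ContinuousOn W Δ := by
    apply ContinuousOn.add
    · exact Complex.continuous_re.comp_continuousOn hf.continuousOn
    · fun_prop
  intro ζ₁ hζ₁
  by_contra hcon
  push Not at hcon
  change (W ζ₁ : EReal) < u ζ₁ at hcon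
  have hζK : ζ₁ ∈ K := by
    by_contra hn
    have h1 := hout ζ₁ hζ₁ hn
    have h2 : ((f ζ₁).re : EReal) ≤ W ζ₁ := by
      rw [EReal.coe_le_coe_iff]
      exact hWf ζ₁ hζ₁
    exact absurd (h1.trans h2) (not_le.2 hcon)
  have hd : UpperSemicontinuousOn (fun ζ => u ζ + ((-W ζ : ℝ) : EReal)) K := by
    apply UpperSemicontinuousOn.add' (husc.mono hKΔ)
    · apply ContinuousOn.upperSemicontinuousOn
      exact continuous_coe_real_ereal.comp_continuousOn (hWc.neg.mono hKΔ)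
    · intro x _
      exact EReal.continuousAt_add (Or.inr (EReal.coe_ne_bot _)) (Or.inr (EReal.coe_ne_top _))
  obtain ⟨c, hcK, hc⟩ := UpperSemicontinuousOn.exists_isMaxOn ⟨ζ₁, hζK⟩ hK hd
  have hcΔ := hKΔ hcK
  have hmax : ∀ ζ ∈ K, u ζ + ((-W ζ : ℝ) : EReal) ≤ u c + ((-W c : ℝ) : EReal) := fun ζ hζ => hc hζ
  have hne : u c ≠ ⊥ := by
    intro h
    have h1 := hmax ζ₁ hζK
    rw [h, EReal.bot_add] at h1
    have h2 : u ζ₁ ≠ ⊥ := ((EReal.bot_lt_coe _).trans hcon).ne'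
    have h3 : u ζ₁ ≠ ⊤ := (hlt ζ₁ hζ₁).ne
    lift u ζ₁ to ℝ using ⟨h3, h2⟩ with y hy
    rw [← EReal.coe_add] at h1
    exact absurd h1 (not_le.2 (EReal.bot_lt_coe _))
  obtain ⟨U, hU⟩ : ∃ U : ℝ, u c = (U : EReal) := by
    lift u c to ℝ using ⟨(hlt c hcΔ).ne, hne⟩ with y hy
    exact ⟨y, rfl⟩
  set t : ℝ := U - W c with ht
  have htpos : 0 < t := by
    have h1 := hmax ζ₁ hζK
    have h2 : u ζ₁ ≠ ⊥ := ((EReal.bot_lt_coe _).trans hcon).ne'
    have h3 : u ζ₁ ≠ ⊤ := (hlt ζ₁ hζ₁).ne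
    rw [hU] at h1
    lift u ζ₁ to ℝ using ⟨h3, h2⟩ with y hy
    rw [← EReal.coe_add, ← EReal.coe_add, EReal.coe_le_coe_iff] at h1
    rw [EReal.coe_lt_coe_iff] at hcon
    rw [ht]
    linarith
  have hall : ∀ ζ ∈ Δ, u ζ ≤ ((W ζ + t : ℝ) : EReal) := by
    intro ζ hζ
    by_cases hζK' : ζ ∈ K
    · have h1 := hmax ζ hζK'
      rw [hU] at h1
      induction hu : u ζ with
      | bot => exact bot_le
      | top => exact absurd hu (hlt ζ hζ).ne
      | coe y =>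
        rw [hu, ← EReal.coe_add, ← EReal.coe_add, EReal.coe_le_coe_iff] at h1
        rw [EReal.coe_le_coe_iff, ht]
        linarith
    · refine (hout ζ hζ hζK').trans ?_
      rw [EReal.coe_le_coe_iff]
      have := hWf ζ hζ
      linarith
  obtain ⟨r, hr, hball⟩ := Metric.nhds_basis_closedBall.mem_iff.1 (hΔ.mem_nhds hcΔ)
  set g : ℂ → ℂ := fun ζ => f (c + r * ζ) - (ε * 2 * r * (starRingEnd ℂ c)) * ζ +
    ((ε * (1 - ‖c‖ ^ 2 - r ^ 2) + t : ℝ) : ℂ) with hg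
  set Uset : Set ℂ := (fun ζ : ℂ => c + r * ζ) ⁻¹' Δ with hUset
  have hUs : closedBall (0 : ℂ) 1 ⊆ Uset := by
    intro ζ hζ
    apply hball
    rw [mem_closedBall, dist_eq_norm, add_sub_cancel_left, norm_mul, Complex.norm_real,
      Real.norm_eq_abs, abs_of_pos hr]
    have : ‖ζ‖ ≤ 1 := by simpa using hζ
    nlinarith
  have hgd : DifferentiableOn ℂ g Uset := by
    apply DifferentiableOn.add_const
    apply DifferentiableOn.sub
    · apply hf.comp
      · fun_prop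
      · exact fun ζ hζ => hζ
    · fun_prop
  have hgre : ∀ ζ : ℂ, ‖ζ‖ = 1 → (g ζ).re = W (c + r * ζ) + t := by
    intro ζ hζ
    simp only [hg, hW, Complex.add_re, Complex.sub_re, Complex.ofReal_re]
    rw [normSq_add c ζ r hζ]
    have : ((ε : ℂ) * 2 * r * (starRingEnd ℂ c) * ζ).re =
        ε * (2 * r * (starRingEnd ℂ c) * ζ).re := by
      rw [← Complex.re_ofReal_mul]
      congr 1
      ring
    rw [this]
    ring
  have h1 := hsub c hcΔ r hr hball (fun ζ => (g ζ).re)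
    (Complex.continuous_re.comp_continuousOn
      (hgd.continuousOn.mono (sphere_subset_closedBall.trans hUs))) (by
    intro ζ hζ
    rw [hgre ζ hζ]
    exact hall _ (hUs (by simpa using hζ.le)))
  rw [mean_re hUs hgd, hU, EReal.coe_le_coe_iff] at h1
  simp only [hg, mul_zero, add_zero, sub_zero, Complex.add_re, Complex.ofReal_re] at h1
  have h2 : W c = (f c).re + ε * (1 - ‖c‖ ^ 2) := rfl
  have h3 : 0 < ε * r ^ 2 := by positivity
  rw [ht] at h1
  linarith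

theorem max_principle {Δ : Set ℂ} (hΔ : IsOpen Δ) (hΔ1 : ∀ ζ ∈ Δ, ‖ζ‖ ≤ 1) {u : ℂ → EReal}
    (husc : UpperSemicontinuousOn u Δ) (hlt : ∀ ζ ∈ Δ, u ζ < ⊤)
    (hsub : ∀ c ∈ Δ, ∀ r : ℝ, 0 < r → closedBall c r ⊆ Δ → ∀ h : ℂ → ℝ,
      ContinuousOn h (sphere 0 1) → (∀ ζ : ℂ, ‖ζ‖ = 1 → u (c + r * ζ) ≤ (h ζ : EReal)) →
        u c ≤ ((Real.circleAverage h 0 1 : ℝ) : EReal))
    {f : ℂ → ℂ} (hf : DifferentiableOn ℂ f Δ) {K : Set ℂ} (hK : IsCompact K) (hKΔ : K ⊆ Δ)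
    (hout : ∀ ζ ∈ Δ, ζ ∉ K → u ζ ≤ ((f ζ).re : EReal)) :
    ∀ ζ ∈ Δ, u ζ ≤ ((f ζ).re : EReal) := by
  intro ζ hζ
  have hlim : Tendsto (fun ε : ℝ => (((f ζ).re + ε * (1 - ‖ζ‖ ^ 2) : ℝ) : EReal)) (𝓝[>] 0)
      (𝓝 (((f ζ).re + 0 * (1 - ‖ζ‖ ^ 2) : ℝ) : EReal)) := by
    apply (continuous_coe_real_ereal.tendsto _).comp
    apply Tendsto.mono_left _ nhdsWithin_le_nhds
    apply Continuous.tendsto
    fun_prop
  have h1 := ge_of_tendsto hlim (by
    filter_upwards [self_mem_nhdsWithin] with ε hε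
    exact max_principle_aux hΔ hΔ1 husc hlt hsub hf hK hKΔ hout hε ζ hζ)
  simpa using h1

/-! ### The upper bound: lines through `(1, 0)` -/

theorem step_B {v : (Fin 2 → ℂ) → EReal} (hv : PSH ballC2 v) {C : ℝ}
    (h1 : ∀ y ∈ ballC2, v y ≤ psi y) (h2 : ∀ y ∈ ballC2, v y ≤ (phi y : EReal) + C)
    {z : Fin 2 → ℂ} (hz : z ∈ ballC2) :
    v z ≤ ((psi z - ((FF z).re - ‖GG z‖ ^ 2) / 32 : ℝ) : EReal) := by
  have hz0 := one_sub_ne hz
  set G0 : ℂ := GG z with hG0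
  set g : ℝ := ‖G0‖ with hg
  set L : ℂ → (Fin 2 → ℂ) := fun ζ => ![ζ, G0 * (1 - ζ)] with hL
  have L0 : ∀ ζ, L ζ 0 = ζ := fun ζ => by simp [hL]
  have L1 : ∀ ζ, L ζ 1 = G0 * (1 - ζ) := fun ζ => by simp [hL]
  have hLz : L (z 0) = z := by
    funext i
    fin_cases i
    · simp [hL]
    · simp only [hL, hG0, GG, Fin.mk_one, Matrix.cons_val_one, Matrix.cons_val_fin_one]
      field_simp
  have hLcont : Continuous L := by
    apply continuous_pi
    intro i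
    fin_cases i
    · simp only [hL, Fin.zero_eta, Matrix.cons_val_zero]
      fun_prop
    · simp only [hL, Fin.mk_one, Matrix.cons_val_one, Matrix.cons_val_fin_one]
      fun_prop
  set Δ : Set ℂ := L ⁻¹' ballC2 with hΔ
  have hΔo : IsOpen Δ := isOpen_ballC2.preimage hLcont
  have hne : ∀ ζ ∈ Δ, 1 - ζ ≠ 0 := by
    intro ζ hζ
    have := one_sub_ne (z := L ζ) hζ
    rwa [L0] at this
  have hlt1 : ∀ ζ ∈ Δ, ‖ζ‖ < 1 := by
    intro ζ hζ
    have h3 : ‖L ζ 0‖ ^ 2 + ‖L ζ 1‖ ^ 2 < 1 := hζ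
    rw [L0] at h3
    have h4 : ‖ζ‖ ^ 2 < 1 := by nlinarith [sq_nonneg ‖L ζ 1‖]
    nlinarith [norm_nonneg ζ]
  have hGL : ∀ ζ ∈ Δ, GG (L ζ) = G0 := by
    intro ζ hζ
    have := hne ζ hζ
    unfold GG
    rw [L0, L1]
    field_simp
  have hFL : ∀ ζ, FF (L ζ) = (1 + ζ) / (1 - ζ) := by
    intro ζ
    unfold FF
    rw [L0]
  have hLdiff : Differentiable ℂ L := by
    rw [differentiable_pi]
    intro i
    fin_cases i
    · simp only [hL, Fin.zero_eta, Matrix.cons_val_zero]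
      fun_prop
    · simp only [hL, Fin.mk_one, Matrix.cons_val_one, Matrix.cons_val_fin_one]
      fun_prop
  have hFd : DifferentiableOn ℂ (fun ζ => FF (L ζ)) Δ :=
    diff_F.comp hLdiff.differentiableOn (fun ζ hζ => hζ)
  have hslit : ∀ ζ ∈ Δ, 1 - ζ ∈ Complex.slitPlane := by
    intro ζ hζ
    left
    rw [Complex.sub_re, Complex.one_re]
    have h3 := hlt1 ζ hζ
    have h4 := Complex.re_le_norm ζ
    linarith
  have hlogd : DifferentiableOn ℂ (fun ζ => Complex.log (1 - ζ)) Δ := by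
    apply DifferentiableOn.clog
    · fun_prop
    · exact hslit
  have hX : ∀ ζ ∈ Δ, ((FF (L ζ)).re - g ^ 2) * ‖1 - ζ‖ ^ 2 =
      1 - ‖ζ‖ ^ 2 - g ^ 2 * ‖1 - ζ‖ ^ 2 := by
    intro ζ hζ
    have h3 := re_F (hne ζ hζ)
    rw [hFL]
    linarith
  have hXpos : ∀ ζ ∈ Δ, 0 < (FF (L ζ)).re - g ^ 2 := by
    intro ζ hζ
    have h3 := G_lt_F (z := L ζ) hζ
    rw [hGL ζ hζ, ← hg] at h3
    linarith
  have hκ : 0 < Real.log 3 - Real.log 2 := by
    have := Real.log_lt_log (by norm_num : (0 : ℝ) < 2) (by norm_num : (2 : ℝ) < 3)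
    linarith
  have main : ∀ ε : ℝ, 0 < ε → v z ≤ ((psi z - ((FF z).re - g ^ 2) / 32 +
      ε * (Real.log 3 - Real.log ‖1 - z 0‖) : ℝ) : EReal) := by
    intro ε hε
    set M : ℝ := g ^ 2 + |C| with hM
    have hM0 : 0 ≤ M := by positivity
    set δ : ℝ := Real.exp (-(M / ε)) with hδ
    have hδ0 : 0 < δ := Real.exp_pos _
    set η : ℝ := 32 * ε * (Real.log 3 - Real.log 2) * δ ^ 2 with hη
    have hη0 : 0 < η := by positivity
    set f : ℂ → ℂ := fun ζ => -FF (L ζ) + G0 ^ 2 - (FF (L ζ) - (g ^ 2 : ℝ)) / 32 +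
      ε * ((Real.log 3 : ℝ) - Complex.log (1 - ζ)) with hf
    have hfd : DifferentiableOn ℂ f Δ := by
      apply DifferentiableOn.add
      · apply DifferentiableOn.sub
        · exact hFd.neg.add_const _
        · exact (hFd.sub_const _).div_const _
      · exact (hlogd.const_sub _).const_mul _
    have hfre : ∀ ζ ∈ Δ, (f ζ).re = psi (L ζ) - ((FF (L ζ)).re - g ^ 2) / 32 +
        ε * (Real.log 3 - Real.log ‖1 - ζ‖) := by
      intro ζ hζ
      have e1 : psi (L ζ) = (-FF (L ζ) + G0 ^ 2).re := by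
        unfold psi
        rw [hGL ζ hζ]
      rw [e1]
      simp only [hf, Complex.add_re, Complex.sub_re, Complex.re_ofReal_mul, Complex.ofReal_re,
        Complex.log_re]
      congr 2
      rw [show (32 : ℂ) = ((32 : ℝ) : ℂ) by norm_num, Complex.div_ofReal_re, Complex.sub_re,
        Complex.ofReal_re]
    set K : Set ℂ := {ζ | δ ≤ ‖1 - ζ‖ ∧ η ≤ 1 - ‖ζ‖ ^ 2 - g ^ 2 * ‖1 - ζ‖ ^ 2} with hK
    have hKc : IsCompact K := by
      apply Metric.isCompact_of_isClosed_isBounded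
      · have c1 : IsClosed {ζ : ℂ | δ ≤ ‖1 - ζ‖} := isClosed_le (by fun_prop) (by fun_prop)
        have c2 : IsClosed {ζ : ℂ | η ≤ 1 - ‖ζ‖ ^ 2 - g ^ 2 * ‖1 - ζ‖ ^ 2} :=
          isClosed_le (by fun_prop) (by fun_prop)
        exact c1.inter c2
      · apply (Metric.isBounded_closedBall (x := (0 : ℂ)) (r := 1)).subset
        intro ζ hζ
        rw [mem_closedBall, dist_zero_right]
        have h3 := hζ.2
        have h4 : 0 ≤ g ^ 2 * ‖1 - ζ‖ ^ 2 := by positivity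
        have h5 : ‖ζ‖ ^ 2 ≤ 1 := by linarith
        nlinarith [norm_nonneg ζ]
    have hKΔ : K ⊆ Δ := by
      intro ζ hζ
      have h3 := hζ.2
      change ‖L ζ 0‖ ^ 2 + ‖L ζ 1‖ ^ 2 < 1
      rw [L0, L1, norm_mul, mul_pow, ← hg]
      linarith
    have hout : ∀ ζ ∈ Δ, ζ ∉ K → v (L ζ) ≤ ((f ζ).re : EReal) := by
      intro ζ hζ hζK
      have hpos : 0 < ‖1 - ζ‖ := norm_pos_iff.2 (hne ζ hζ)
      rw [hfre ζ hζ]
      by_cases hc : δ ≤ ‖1 - ζ‖
      · have h3 : 1 - ‖ζ‖ ^ 2 - g ^ 2 * ‖1 - ζ‖ ^ 2 < η := by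
          by_contra hn
          exact hζK ⟨hc, not_lt.1 hn⟩
        rw [← hX ζ hζ] at h3
        have h4 : ‖1 - ζ‖ ≤ 2 := by
          have h5 := norm_sub_le (1 : ℂ) ζ
          have h6 := hlt1 ζ hζ
          rw [norm_one] at h5
          linarith
        have h5 : Real.log ‖1 - ζ‖ ≤ Real.log 2 := Real.log_le_log hpos h4
        have h6 : ((FF (L ζ)).re - g ^ 2) * δ ^ 2 < η := by
          refine lt_of_le_of_lt ?_ h3
          apply mul_le_mul_of_nonneg_left _ (hXpos ζ hζ).le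
          exact pow_le_pow_left₀ hδ0.le hc 2
        have h7 : (FF (L ζ)).re - g ^ 2 < 32 * ε * (Real.log 3 - Real.log 2) := by
          rw [hη] at h6
          exact lt_of_mul_lt_mul_right h6 (by positivity)
        refine (h1 _ hζ).trans ?_
        rw [EReal.coe_le_coe_iff]
        have h8 : ε * (Real.log 3 - Real.log 2) ≤ ε * (Real.log 3 - Real.log ‖1 - ζ‖) := by
          apply mul_le_mul_of_nonneg_left _ hε.le
          linarith
        linarith
      · push Not at hc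
        have h3 : Real.log ‖1 - ζ‖ < -(M / ε) := by
          rw [Real.log_lt_iff_lt_exp hpos]
          exact hc
        refine (step_A' hv h1 h2 (z := L ζ) hζ).trans ?_
        rw [EReal.coe_le_coe_iff, hGL ζ hζ, ← hg, ← hM]
        have h4 : ε * (M / ε) = M := by field_simp
        have h5 : 0 ≤ Real.log 3 := Real.log_nonneg (by norm_num)
        have h6 : ε * Real.log ‖1 - ζ‖ ≤ ε * (-(M / ε)) := mul_le_mul_of_nonneg_left h3.le hε.le
        have h7 : 0 ≤ ε * Real.log 3 := by positivity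
        nlinarith
    have hmp := max_principle hΔo (fun ζ hζ => (hlt1 ζ hζ).le) (u := fun ζ => v (L ζ))
      (hv.usc.comp hLcont.continuousOn (fun ζ hζ => hζ)) (fun ζ hζ => hv.lt_top _ hζ) (by
        intro c hc r hr hball h hh hle
        have hLb : ∀ ζ : ℂ, L c + ζ • (![(r : ℂ), -(G0 * r)] : Fin 2 → ℂ) = L (c + r * ζ) := by
          intro ζ
          funext i
          fin_cases i
          · simp [hL]
            ring
          · simp [hL]
            ring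
        apply hv.submean (L c) (![(r : ℂ), -(G0 * r)] : Fin 2 → ℂ) _ h hh
        · intro ζ hζ
          rw [hLb]
          exact hle ζ hζ
        · intro ζ hζ
          rw [hLb]
          apply hball
          rw [mem_closedBall, dist_eq_norm, add_sub_cancel_left, norm_mul, Complex.norm_real,
            Real.norm_eq_abs, abs_of_pos hr]
          nlinarith) hfd hKc hKΔ hout (z 0) (by
        change L (z 0) ∈ ballC2
        rw [hLz]
        exact hz)
    rw [hfre (z 0) (by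
      change L (z 0) ∈ ballC2
      rw [hLz]
      exact hz)] at hmp
    simp only [hLz] at hmp
    exact hmp
  have hlim : Tendsto (fun ε : ℝ => ((psi z - ((FF z).re - g ^ 2) / 32 +
      ε * (Real.log 3 - Real.log ‖1 - z 0‖) : ℝ) : EReal)) (𝓝[>] 0)
      (𝓝 ((psi z - ((FF z).re - g ^ 2) / 32 +
      0 * (Real.log 3 - Real.log ‖1 - z 0‖) : ℝ) : EReal)) := by
    apply (continuous_coe_real_ereal.tendsto _).comp
    apply Tendsto.mono_left _ nhdsWithin_le_nhds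
    apply Continuous.tendsto
    fun_prop
  have h3 := ge_of_tendsto hlim (by
    filter_upwards [self_mem_nhdsWithin] with ε hε
    exact main ε hε)
  simpa using h3

/-! ### The ball is a bounded pseudoconvex domain -/

theorem lagrange (z0 z1 a0 a1 : ℂ) :
    ‖z0 * (starRingEnd ℂ) a0 + z1 * (starRingEnd ℂ) a1‖ ^ 2 + ‖z0 * a1 - z1 * a0‖ ^ 2 =
      (‖z0‖ ^ 2 + ‖z1‖ ^ 2) * (‖a0‖ ^ 2 + ‖a1‖ ^ 2) := by
  simp only [← Complex.normSq_eq_norm_sq, Complex.normSq_apply, Complex.add_re, Complex.add_im,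
    Complex.sub_re, Complex.sub_im, Complex.mul_re, Complex.mul_im, Complex.conj_re,
    Complex.conj_im]
  ring

theorem hyp_cs {z0 z1 a0 a1 : ℂ} (hz : ‖z0‖ ^ 2 + ‖z1‖ ^ 2 < 1) (ha : ‖a0‖ ^ 2 + ‖a1‖ ^ 2 < 1) :
    (1 - (‖z0‖ ^ 2 + ‖z1‖ ^ 2)) * (1 - (‖a0‖ ^ 2 + ‖a1‖ ^ 2)) ≤
      ‖1 - (z0 * (starRingEnd ℂ) a0 + z1 * (starRingEnd ℂ) a1)‖ ^ 2 := by
  set w : ℂ := z0 * (starRingEnd ℂ) a0 + z1 * (starRingEnd ℂ) a1 with hw
  set s : ℝ := ‖z0‖ ^ 2 + ‖z1‖ ^ 2 with hs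
  set t : ℝ := ‖a0‖ ^ 2 + ‖a1‖ ^ 2 with ht
  have h1 : ‖w‖ ^ 2 ≤ s * t := by
    have := lagrange z0 z1 a0 a1
    rw [← hw, ← hs, ← ht] at this
    nlinarith [sq_nonneg ‖z0 * a1 - z1 * a0‖]
  have hs0 : 0 ≤ s := by positivity
  have ht0 : 0 ≤ t := by positivity
  have h2 : ‖w‖ ≤ Real.sqrt (s * t) := Real.le_sqrt_of_sq_le h1
  have h3 : Real.sqrt (s * t) ≤ 1 := by
    rw [Real.sqrt_le_one]
    nlinarith
  have h4 : Real.sqrt (s * t) ^ 2 = s * t := Real.sq_sqrt (by positivity)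
  have h5 : 2 * Real.sqrt (s * t) ≤ s + t := by
    nlinarith [sq_nonneg (s - t), Real.sqrt_nonneg (s * t)]
  have h6 : 1 - ‖w‖ ≤ ‖1 - w‖ := by
    have := norm_sub_norm_le (1 : ℂ) w
    rwa [norm_one] at this
  have h7 : (1 - Real.sqrt (s * t)) ^ 2 ≤ ‖1 - w‖ ^ 2 := by
    apply pow_le_pow_left₀ (by linarith)
    linarith
  nlinarith

theorem ballC2_bounded : Bornology.IsBounded ballC2 := by
  apply (Metric.isBounded_closedBall (x := (0 : Fin 2 → ℂ)) (r := 1)).subset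
  intro z hz
  have h1 : ‖z 0‖ ^ 2 + ‖z 1‖ ^ 2 < 1 := hz
  rw [mem_closedBall, dist_zero_right, pi_norm_le_iff_of_nonneg zero_le_one]
  intro i
  fin_cases i
  · simp only [Fin.zero_eta]
    nlinarith [norm_nonneg (z 0), sq_nonneg ‖z 1‖]
  · simp only [Fin.mk_one]
    nlinarith [norm_nonneg (z 1), sq_nonneg ‖z 0‖]

theorem ballC2_connected : IsConnected ballC2 := by
  have h0 : (0 : Fin 2 → ℂ) ∈ ballC2 := by
    change ‖(0 : Fin 2 → ℂ) 0‖ ^ 2 + ‖(0 : Fin 2 → ℂ) 1‖ ^ 2 < 1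
    simp
  have hs : StarConvex ℝ (0 : Fin 2 → ℂ) ballC2 := by
    intro y hy a b ha hb hab
    have h1 : ‖y 0‖ ^ 2 + ‖y 1‖ ^ 2 < 1 := hy
    have hb1 : b ≤ 1 := by linarith
    change ‖(a • (0 : Fin 2 → ℂ) + b • y) 0‖ ^ 2 + ‖(a • (0 : Fin 2 → ℂ) + b • y) 1‖ ^ 2 < 1
    simp only [smul_zero, zero_add, Pi.smul_apply, norm_smul, Real.norm_eq_abs, abs_of_nonneg hb,
      mul_pow]
    have hb2 : b ^ 2 ≤ 1 := by nlinarith
    nlinarith [sq_nonneg ‖y 0‖, sq_nonneg ‖y 1‖]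
  exact (hs.isPathConnected h0).isConnected

theorem ballC2_domain : BoundedPseudoconvexDomain ballC2 := by
  refine ⟨isOpen_ballC2, ballC2_connected, ballC2_bounded,
    fun z => (1 - (‖z 0‖ ^ 2 + ‖z 1‖ ^ 2))⁻¹, ?_, ?_, ?_⟩
  · apply ContinuousOn.inv₀
    · fun_prop
    · intro z hz
      have h1 : ‖z 0‖ ^ 2 + ‖z 1‖ ^ 2 < 1 := hz
      exact (sub_pos.2 h1).ne'
  · apply psh_of_touch
    · apply ContinuousOn.inv₀
      · fun_prop
      · intro z hz
        have h1 : ‖z 0‖ ^ 2 + ‖z 1‖ ^ 2 < 1 := hz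
        exact (sub_pos.2 h1).ne'
    · intro a ha
      have ha1 : ‖a 0‖ ^ 2 + ‖a 1‖ ^ 2 < 1 := ha
      have hpos : ∀ z ∈ ballC2, 0 < ‖1 - (z 0 * (starRingEnd ℂ) (a 0) +
          z 1 * (starRingEnd ℂ) (a 1))‖ ^ 2 := by
        intro z hz
        have hz1 : ‖z 0‖ ^ 2 + ‖z 1‖ ^ 2 < 1 := hz
        exact lt_of_lt_of_le (mul_pos (sub_pos.2 hz1) (sub_pos.2 ha1)) (hyp_cs hz1 ha1)
      have hne : ∀ z ∈ ballC2, 1 - (z 0 * (starRingEnd ℂ) (a 0) +
          z 1 * (starRingEnd ℂ) (a 1)) ≠ 0 := by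
        intro z hz h
        have := hpos z hz
        rw [h, norm_zero] at this
        norm_num at this
      refine ⟨fun z => ((1 - (‖a 0‖ ^ 2 + ‖a 1‖ ^ 2) : ℝ) : ℂ) *
        ((1 - (z 0 * (starRingEnd ℂ) (a 0) + z 1 * (starRingEnd ℂ) (a 1))) ^ 2)⁻¹, ?_, ?_, ?_⟩
      · apply DifferentiableOn.const_mul
        apply DifferentiableOn.inv
        · fun_prop
        · intro z hz
          exact pow_ne_zero 2 (hne z hz)
      · intro z hz
        have hz1 : ‖z 0‖ ^ 2 + ‖z 1‖ ^ 2 < 1 := hz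
        refine (Complex.re_le_norm _).trans ?_
        rw [norm_mul, Complex.norm_real, Real.norm_eq_abs, abs_of_pos (sub_pos.2 ha1), norm_inv,
          norm_pow, ← div_eq_mul_inv, div_le_iff₀ (hpos z hz)]
        rw [inv_mul_eq_div, le_div_iff₀ (sub_pos.2 hz1)]
        have := hyp_cs hz1 ha1
        linarith
      · have h1 : a 0 * (starRingEnd ℂ) (a 0) + a 1 * (starRingEnd ℂ) (a 1) =
            ((‖a 0‖ ^ 2 + ‖a 1‖ ^ 2 : ℝ) : ℂ) := by
          rw [Complex.mul_conj, Complex.mul_conj, Complex.normSq_eq_norm_sq,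
            Complex.normSq_eq_norm_sq]
          push_cast
          ring
        have h2 : (1 : ℝ) - (‖a 0‖ ^ 2 + ‖a 1‖ ^ 2) ≠ 0 := (sub_pos.2 ha1).ne'
        have h3 : ((1 - (‖a 0‖ ^ 2 + ‖a 1‖ ^ 2) : ℝ) : ℂ) *
            ((1 - (a 0 * (starRingEnd ℂ) (a 0) + a 1 * (starRingEnd ℂ) (a 1))) ^ 2)⁻¹ =
            (((1 - (‖a 0‖ ^ 2 + ‖a 1‖ ^ 2))⁻¹ : ℝ) : ℂ) := by
          rw [h1, show (1 : ℂ) - ((‖a 0‖ ^ 2 + ‖a 1‖ ^ 2 : ℝ) : ℂ) =
            ((1 - (‖a 0‖ ^ 2 + ‖a 1‖ ^ 2) : ℝ) : ℂ) by push_cast; ring, ← Complex.ofReal_pow,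
            ← Complex.ofReal_inv, ← Complex.ofReal_mul]
          congr 1
          field_simp
        simp only [h3, Complex.ofReal_re]
  · intro c
    have h1 : {z : Fin 2 → ℂ | z ∈ ballC2 ∧ (1 - (‖z 0‖ ^ 2 + ‖z 1‖ ^ 2))⁻¹ ≤ c} =
        {z : Fin 2 → ℂ | 1 ≤ c * (1 - (‖z 0‖ ^ 2 + ‖z 1‖ ^ 2))} ∩
          {z : Fin 2 → ℂ | ‖z 0‖ ^ 2 + ‖z 1‖ ^ 2 ≤ 1} := by
      ext z
      simp only [mem_ofPred_eq, mem_inter_iff]
      constructor
      · rintro ⟨hz, hc⟩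
        have hz1 : ‖z 0‖ ^ 2 + ‖z 1‖ ^ 2 < 1 := hz
        refine ⟨?_, hz1.le⟩
        have h2 := sub_pos.2 hz1
        rw [inv_le_iff_one_le_mul₀ h2] at hc
        linarith
      · rintro ⟨hc, hz⟩
        have hz1 : ‖z 0‖ ^ 2 + ‖z 1‖ ^ 2 < 1 := by
          refine lt_of_le_of_ne hz ?_
          intro h
          rw [h] at hc
          norm_num at hc
        refine ⟨hz1, ?_⟩
        rw [inv_le_iff_one_le_mul₀ (sub_pos.2 hz1)]
        linarith
    rw [h1]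
    apply Metric.isCompact_of_isClosed_isBounded
    · apply IsClosed.inter
      · exact isClosed_le (by fun_prop) (by fun_prop)
      · exact isClosed_le (by fun_prop) (by fun_prop)
    · apply (Metric.isBounded_closedBall (x := (0 : Fin 2 → ℂ)) (r := 1)).subset
      intro z hz
      have h2 : ‖z 0‖ ^ 2 + ‖z 1‖ ^ 2 ≤ 1 := hz.2
      rw [mem_closedBall, dist_zero_right, pi_norm_le_iff_of_nonneg zero_le_one]
      intro i
      fin_cases i
      · simp only [Fin.zero_eta]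
        nlinarith [norm_nonneg (z 0), sq_nonneg ‖z 1‖]
      · simp only [Fin.mk_one]
        nlinarith [norm_nonneg (z 1), sq_nonneg ‖z 0‖]

/-! ### The result -/

theorem cont_bound : ContinuousOn (fun z => psi z - ((FF z).re - ‖GG z‖ ^ 2) / 32) ballC2 := by
  have h1 : ContinuousOn psi ballC2 :=
    Complex.continuous_re.comp_continuousOn (diff_F.neg.add (diff_G.pow 2)).continuousOn
  have h2 : ContinuousOn (fun z => (FF z).re) ballC2 :=
    Complex.continuous_re.comp_continuousOn diff_F.continuousOn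
  have h3 : ContinuousOn (fun z => ‖GG z‖ ^ 2) ballC2 := diff_G.continuousOn.norm.pow 2
  exact h1.sub ((h2.sub h3).div_const 32)

theorem roof_le (C : ℝ) {z : Fin 2 → ℂ} (hz : z ∈ ballC2) :
    roof ballC2 (fun y => (psi y : EReal)) (fun y => (phi y : EReal) + C) z ≤
      ((psi z - ((FF z).re - ‖GG z‖ ^ 2) / 32 : ℝ) : EReal) := by
  unfold roof env
  refine usr_le (g := fun z => psi z - ((FF z).re - ‖GG z‖ ^ 2) / 32) cont_bound ?_ hz
  intro y hy
  apply iSup_le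
  rintro ⟨v, hv, hle⟩
  exact step_B hv (C := C) (fun x hx => (hle x hx).trans (min_le_left _ _))
    (fun x hx => (hle x hx).trans (min_le_right _ _)) hy

theorem asym_le {z : Fin 2 → ℂ} (hz : z ∈ ballC2) :
    asym ballC2 (fun y => (phi y : EReal)) (fun y => (psi y : EReal)) z ≤
      ((psi z - ((FF z).re - ‖GG z‖ ^ 2) / 32 : ℝ) : EReal) := by
  unfold asym
  refine usr_le (g := fun z => psi z - ((FF z).re - ‖GG z‖ ^ 2) / 32) cont_bound ?_ hz
  intro y hy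
  exact iSup_le fun C => roof_le C hy

theorem le_roof {z : Fin 2 → ℂ} (hz : z ∈ ballC2) :
    (psi z : EReal) ≤ roof ballC2 (fun y => (psi y : EReal))
      (resid ballC2 (fun y => (phi y : EReal))) z := by
  unfold roof env
  refine le_trans ?_ (le_usr (f := fun x => ⨆ v : {v : (Fin 2 → ℂ) → EReal // PSH ballC2 v ∧
    ∀ y ∈ ballC2, v y ≤ min (psi y : EReal) (resid ballC2 (fun y => (phi y : EReal)) y)}, v.1 x)
    hz)
  exact le_iSup (fun v : {v : (Fin 2 → ℂ) → EReal // PSH ballC2 v ∧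
    ∀ y ∈ ballC2, v y ≤ min (psi y : EReal) (resid ballC2 (fun y => (phi y : EReal)) y)} => v.1 z)
    ⟨fun y => (psi y : EReal), psh_psi, fun y hy => le_min le_rfl (psi_le_resid hy)⟩

/-- **The asymptotic rooftop is not the rooftop with the residual function.** On the unit ball `B`
of `ℂ²`, a bounded pseudoconvex domain, the negative pluriharmonic functions
`φ = -Re ((1 + z₀) / (1 - z₀))` and `ψ = φ + Re (z₁² / (1 - z₀)²)` satisfy
`P[φ](ψ) < P(ψ, g_φ)` at every point of `B`. -/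
theorem result : BoundedPseudoconvexDomain ballC2 ∧
    ∃ φ ψ : (Fin 2 → ℂ) → ℝ,
      (∀ z, φ z = (-((1 + z 0) / (1 - z 0))).re) ∧
      (∀ z, ψ z = (-((1 + z 0) / (1 - z 0)) + (z 1 / (1 - z 0)) ^ 2).re) ∧
      PSH ballC2 (fun z => (φ z : EReal)) ∧ PSH ballC2 (fun z => (ψ z : EReal)) ∧
      (∀ z ∈ ballC2, φ z < 0) ∧ (∀ z ∈ ballC2, ψ z < 0) ∧
      ∀ z ∈ ballC2, asym ballC2 (fun z => (φ z : EReal)) (fun z => (ψ z : EReal)) z <
        roof ballC2 (fun z => (ψ z : EReal)) (resid ballC2 (fun z => (φ z : EReal))) z := by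
  refine ⟨ballC2_domain, phi, psi, fun _ => rfl, fun _ => rfl, psh_phi, psh_psi,
    fun z hz => phi_neg hz, fun z hz => psi_neg hz, ?_⟩
  intro z hz
  refine lt_of_le_of_lt (asym_le hz) (lt_of_lt_of_le ?_ (le_roof hz))
  rw [EReal.coe_lt_coe_iff]
  have := G_lt_F hz
  linarith

end Pool.Agent.Results.MP_c86293_an.RooftopFails
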